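import Pool.Agent.Work.MP_ccf6ab_al.Bd.Fin

set_option autoImplicit false
open CategoryTheory

namespace Pool.Agent.Results.MP_ccf6ab_al.BoundedBricks

open Pool.Agent.Work.MP_ccf6ab_al

/-- Demonet's conjecture for algebras with infinitely many bricks of bounded dimension. -/
theorem result :
    ∀ (k : Type) [Field k] (A : Type) [Ring A] [Algebra k A] [FiniteDimensional k A],
      (∃ D : ℕ, ∀ n : ℕ, ∃ M : Fin n → ModuleCat.{0} A,
          (∀ i, Module.Finite A (M i) ∧ Nontrivial (M i) ∧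
              (∀ φ : M i ⟶ M i, φ = 0 ∨ IsIso φ) ∧
              Module.finrank k ((ModuleCat.restrictScalars (algebraMap k A)).obj (M i)) ≤ D) ∧
          ∀ i j, Nonempty (M i ≅ M j) → i = j) →
      ∃ Q0 Q1 : ModuleCat.{0} A,
        Module.Projective A Q0 ∧ Module.Finite A Q0 ∧
        Module.Projective A Q1 ∧ Module.Finite A Q1 ∧
        ∀ P0 P1 : ModuleCat.{0} A,
          Module.Projective A P0 → Module.Finite A P0 →
          Module.Projective A P1 → Module.Finite A P1 →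
          Nonempty ((P0 × Q1) ≃ₗ[A] (Q0 × P1)) →
          ∀ f : P1 →ₗ[A] P0,
            ¬ (∀ h : P1 →ₗ[A] P0, ∃ a : P0 →ₗ[A] P0, ∃ b : P1 →ₗ[A] P1,
                h = a ∘ₗ f + f ∘ₗ b) := by
  intro k _ A _ _ _ ⟨D, hinf⟩
  by_contra hc
  push Not at hc
  let mk : (M : ModuleCat.{0} A) → Module.Finite A M → FM k A := fun M _ =>
    letI : Module k M := Module.compHom M (algebraMap k A)
    haveI : IsScalarTower k A M := IsScalarTower.of_algebraMap_smul fun _ _ => rfl
    haveI : Module.Finite k M := Module.Finite.trans A M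
    FM.mk M
  have fin : ∀ X : FM k A, Module.Finite A X := fun X => Module.Finite.of_restrictScalars_finite k A X
  have hA : AllRigid k A := by
    intro U
    obtain ⟨P0, P1, a0, b0, a1, b1, e, f, hf⟩ := hc (ModuleCat.of A U.P0) (ModuleCat.of A U.P1)
      U.pr0 (fin _) U.pr1 (fin _)
    exact ⟨@Cx.mk k _ A _ _ (mk P1 b1) (mk P0 b0) f a1 a0, hf, e⟩
  obtain ⟨s, hs⟩ := finite_bounded_bricks hA D
  obtain ⟨M, hM, hne⟩ := hinf (s.card + 1)
  have hb : ∀ i, ∃ L : s, Nonempty (L.1 ≃ₗ[A] M i) := by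
    intro i
    obtain ⟨L, hL, e⟩ := hs (mk (M i) (hM i).1) ⟨(hM i).2.1, fun φ => by
      rcases (hM i).2.2.1 (ModuleCat.ofHom φ) with h | h
      · exact Or.inl (congrArg ModuleCat.Hom.hom h)
      · exact Or.inr (ConcreteCategory.bijective_of_isIso (ModuleCat.ofHom φ))⟩ (hM i).2.2.2
    exact ⟨⟨L, hL⟩, e⟩
  choose g hg using hb
  obtain ⟨i, j, hij, e⟩ := Fintype.exists_ne_map_eq_of_card_lt g (by simp)
  obtain ⟨e1⟩ := hg i
  obtain ⟨e2⟩ := hg j
  rw [← e] at e2
  exact hij (hne i j ⟨(e1.symm.trans e2).toModuleIso⟩)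

end Pool.Agent.Results.MP_ccf6ab_al.BoundedBricks
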