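import Pool.Agent.Work.MP_ccf6ab_al.Bd.Semi

set_option autoImplicit false
open CategoryTheory

namespace Pool.Agent.Results.MP_ccf6ab_al.CompactTorsion

open Pool.Agent.Work.MP_ccf6ab_al

/-- A compact torsion class that is not functorially finite forces a non-rigid lattice point. -/
theorem result :
    ∀ (k : Type) [Field k] (A : Type) [Ring A] [Algebra k A] [FiniteDimensional k A],
      (∃ X : ModuleCat.{0} A, Module.Finite A X ∧
        ∀ N : ModuleCat.{0} A, Module.Finite A N →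
          ¬ ∀ M : ModuleCat.{0} A, Module.Finite A M →
            ((∀ Z : ModuleCat.{0} A, Module.Finite A Z → (∀ φ : X ⟶ Z, φ = 0) →
                ∀ ψ : M ⟶ Z, ψ = 0) ↔
              ∃ r : ℕ, ∃ p : (Fin r → N) →ₗ[A] M, Function.Surjective p)) →
      ∃ Q0 Q1 : ModuleCat.{0} A,
        Module.Projective A Q0 ∧ Module.Finite A Q0 ∧
        Module.Projective A Q1 ∧ Module.Finite A Q1 ∧
        ∀ P0 P1 : ModuleCat.{0} A,
          Module.Projective A P0 → Module.Finite A P0 →
          Module.Projective A P1 → Module.Finite A P1 →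
          Nonempty ((P0 × Q1) ≃ₗ[A] (Q0 × P1)) →
          ∀ f : P1 →ₗ[A] P0,
            ¬ (∀ h : P1 →ₗ[A] P0, ∃ a : P0 →ₗ[A] P0, ∃ b : P1 →ₗ[A] P1,
                h = a ∘ₗ f + f ∘ₗ b) := by
  intro k _ A _ _ _ ⟨X, hX, hN⟩
  by_contra hc
  push Not at hc
  let mk : (M : ModuleCat.{0} A) → Module.Finite A M → FM k A := fun M _ =>
    letI : Module k M := Module.compHom M (algebraMap k A)
    haveI : IsScalarTower k A M := IsScalarTower.of_algebraMap_smul fun _ _ => rfl
    haveI : Module.Finite k M := Module.Finite.trans A M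
    FM.mk M
  have fin : ∀ X : FM k A, Module.Finite A X := fun X => Module.Finite.of_restrictScalars_finite k A X
  have hA : AllRigid k A := by
    intro U
    obtain ⟨P0, P1, a0, b0, a1, b1, e, f, hf⟩ := hc (ModuleCat.of A U.P0) (ModuleCat.of A U.P1)
      U.pr0 (fin _) U.pr1 (fin _)
    exact ⟨@Cx.mk k _ A _ _ (mk P1 b1) (mk P0 b0) f a1 a0, hf, e⟩
  obtain ⟨N, h⟩ := compact_fac hA (mk X hX)
  refine hN (ModuleCat.of A N) (fin N) fun M hM => Iff.trans ⟨fun h1 Z hZ ψ => ?_,
    fun h1 Z hZ h2 ψ => ?_⟩ (h (mk M hM))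
  · exact congrArg ModuleCat.Hom.hom (h1 (ModuleCat.of A Z) (fin Z)
      (fun φ => ModuleCat.hom_ext (hZ φ.hom)) (ModuleCat.ofHom ψ))
  · exact ModuleCat.hom_ext (h1 (mk Z hZ)
      (fun φ => congrArg ModuleCat.Hom.hom (h2 (ModuleCat.ofHom φ))) ψ.hom)

end Pool.Agent.Results.MP_ccf6ab_al.CompactTorsion
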