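import Pool.Agent.Work.MP_ccf6ab_al.Bd.Semi

set_option autoImplicit false
open CategoryTheory

namespace Pool.Agent.Results.MP_ccf6ab_al.Semibricks

open Pool.Agent.Work.MP_ccf6ab_al

/-- More pairwise Hom-orthogonal modules than simple modules force a non-rigid lattice point. -/
theorem result :
    ∀ (k : Type) [Field k] (A : Type) [Ring A] [Algebra k A] [FiniteDimensional k A] (n : ℕ),
      (∀ S : Fin (n + 1) → ModuleCat.{0} A, (∀ i, IsSimpleModule A (S i)) →
          ∃ i j, i ≠ j ∧ Nonempty (S i ≅ S j)) →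
      (∃ M : Fin (n + 1) → ModuleCat.{0} A,
          (∀ i, Module.Finite A (M i) ∧ Nontrivial (M i)) ∧
          ∀ i j, i ≠ j → ∀ φ : M i ⟶ M j, φ = 0) →
      ∃ Q0 Q1 : ModuleCat.{0} A,
        Module.Projective A Q0 ∧ Module.Finite A Q0 ∧
        Module.Projective A Q1 ∧ Module.Finite A Q1 ∧
        ∀ P0 P1 : ModuleCat.{0} A,
          Module.Projective A P0 → Module.Finite A P0 →
          Module.Projective A P1 → Module.Finite A P1 →
          Nonempty ((P0 × Q1) ≃ₗ[A] (Q0 × P1)) →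
          ∀ f : P1 →ₗ[A] P0,
            ¬ (∀ h : P1 →ₗ[A] P0, ∃ a : P0 →ₗ[A] P0, ∃ b : P1 →ₗ[A] P1,
                h = a ∘ₗ f + f ∘ₗ b) := by
  intro k _ A _ _ _ n h2 ⟨M, hM, ho⟩
  by_contra hc
  push Not at hc
  let mk : (M : ModuleCat.{0} A) → Module.Finite A M → FM k A := fun M _ =>
    letI : Module k M := Module.compHom M (algebraMap k A)
    haveI : IsScalarTower k A M := IsScalarTower.of_algebraMap_smul fun _ _ => rfl
    haveI : Module.Finite k M := Module.Finite.trans A M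
    FM.mk M
  have fin : ∀ X : FM k A, Module.Finite A X := fun X => Module.Finite.of_restrictScalars_finite k A X
  have hA : AllRigid k A := by
    intro U
    obtain ⟨P0, P1, a0, b0, a1, b1, e, f, hf⟩ := hc (ModuleCat.of A U.P0) (ModuleCat.of A U.P1)
      U.pr0 (fin _) U.pr1 (fin _)
    exact ⟨@Cx.mk k _ A _ _ (mk P1 b1) (mk P0 b0) f a1 a0, hf, e⟩
  obtain ⟨L, l1, l2⟩ := orth_bound hA n (fun i => mk (M i) (hM i).1) (fun i => (hM i).2)
    fun i j hij φ => congrArg ModuleCat.Hom.hom (ho i j hij (ModuleCat.ofHom φ))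
  obtain ⟨i, j, hij, ⟨e⟩⟩ := h2 (fun i => ModuleCat.of A (L i)) l1
  exact hij (l2 i j ⟨e.toLinearEquiv⟩)

end Pool.Agent.Results.MP_ccf6ab_al.Semibricks
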